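import Mathlib

/-!
The space `C_k(ω*, ω*)` is not Čech-complete.
-/

set_option autoImplicit false

open Set Filter Topology

namespace Pool.Agent.Results.MP_7e6923_gt.NotCechComplete

universe u

/-- The Čech-Stone remainder `ω* = βω \ ω`: the subspace of the nonprincipal ultrafilters in the
space `Ultrafilter ℕ` of all ultrafilters on `ℕ`. -/
def Nstar : Type := {u : Ultrafilter ℕ // ∀ n : ℕ, u ≠ pure n}

instance : TopologicalSpace Nstar := instTopologicalSpaceSubtype

instance : T2Space Nstar := inferInstanceAs (T2Space {u : Ultrafilter ℕ // ∀ n : ℕ, u ≠ pure n})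

/-- The clopen set of the nonprincipal ultrafilters containing `S`. -/
def star (S : Set ℕ) : Set Nstar := {u | S ∈ u.1}

lemma isOpen_star (S : Set ℕ) : IsOpen (star S) :=
  (ultrafilter_isOpen_basic S).preimage continuous_subtype_val

lemma isClosed_star (S : Set ℕ) : IsClosed (star S) :=
  (ultrafilter_isClosed_basic S).preimage continuous_subtype_val

lemma compl_star (S : Set ℕ) : (star S)ᶜ = star Sᶜ := by
  ext u
  exact Ultrafilter.compl_mem_iff_notMem.symm

lemma exists_star {O : Set Nstar} (hO : IsOpen O) {u : Nstar} (hu : u ∈ O) :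
    ∃ S, u ∈ star S ∧ star S ⊆ O := by
  obtain ⟨V, hV, rfl⟩ := isOpen_induced_iff.1 hO
  obtain ⟨T, ⟨S, rfl⟩, hS, hT⟩ := ultrafilterBasis_is_basis.exists_subset_of_mem_open hu hV
  exact ⟨S, hS, fun w hw => hT hw⟩

lemma not_mem_of_finite (u : Nstar) {S : Set ℕ} (hS : S.Finite) : S ∉ u.1 := by
  intro h
  obtain ⟨n, _, hn⟩ := Ultrafilter.eq_pure_of_finite_mem hS h
  exact u.2 n hn

lemma star_nonempty {S : Set ℕ} (hS : S.Infinite) : (star S).Nonempty := by
  have := hS.cofinite_inf_principal_neBot
  have h1 := Ultrafilter.of_le (cofinite ⊓ 𝓟 S)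
  refine ⟨⟨Ultrafilter.of (cofinite ⊓ 𝓟 S), fun n hn => ?_⟩, ?_⟩
  · have h2 : ({n}ᶜ : Set ℕ) ∈ Ultrafilter.of (cofinite ⊓ 𝓟 S) :=
      h1 (mem_inf_of_left (finite_singleton n).compl_mem_cofinite)
    rw [hn] at h2
    exact (Ultrafilter.mem_pure.1 h2) rfl
  · exact h1 (mem_inf_of_right (mem_principal_self S))

lemma star_subset_iff {S T : Set ℕ} : star S ⊆ star T ↔ (S \ T).Finite := by
  constructor
  · intro h
    by_contra hinf
    obtain ⟨u, hu⟩ := star_nonempty (S := S \ T) hinf
    have h1 : S ∈ u.1 := mem_of_superset hu sdiff_subset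
    have h2 : T ∈ u.1 := h h1
    have h3 : (S \ T) ∩ T ∈ u.1 := inter_mem hu h2
    rw [sdiff_inter_self] at h3
    exact u.1.empty_notMem h3
  · intro h u hu
    by_contra hT
    have h1 : Tᶜ ∈ u.1 := Ultrafilter.compl_mem_iff_notMem.2 hT
    exact not_mem_of_finite u h (inter_mem hu h1)

instance : CompactSpace Nstar := by
  have : IsClosed {u : Ultrafilter ℕ | ∀ n : ℕ, u ≠ pure n} := by
    have h : {u : Ultrafilter ℕ | ∀ n : ℕ, u ≠ pure n} = ⋂ n : ℕ, {u | {n} ∈ u}ᶜ := by
      ext u
      simp only [mem_ofPred_eq, mem_iInter, mem_compl_iff]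
      refine forall_congr' fun n => not_congr ?_
      constructor
      · rintro rfl
        exact Ultrafilter.mem_pure.2 rfl
      · intro h
        obtain ⟨m, hm, hm'⟩ := Ultrafilter.eq_pure_of_finite_mem (finite_singleton n) h
        rw [hm', mem_singleton_iff.1 hm]
    rw [h]
    exact isClosed_iInter fun n => (ultrafilter_isOpen_basic {n}).isClosed_compl
  exact isCompact_iff_compactSpace.1 this.isCompact

/-- The space `C_k(ω*, ω*)` is a Tychonoff space. -/
lemma t35 : T35Space C(Nstar, Nstar) := by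
  let _ : UniformSpace Nstar := uniformSpaceOfCompactR1
  have : CompletelyRegularSpace C(Nstar, Nstar) := UniformSpace.toCompletelyRegularSpace
  exact {}

/-- The map of `ω*` to itself induced by an injection of `ω`. -/
def induced (φ : ℕ → ℕ) (hφ : Function.Injective φ) : C(Nstar, Nstar) where
  toFun u := ⟨u.1.map φ, fun n hn => by
    have h1 : ({n} : Set ℕ) ∈ u.1.map φ := by
      rw [hn]
      exact Ultrafilter.mem_pure.2 rfl
    have h2 : φ ⁻¹' {n} ∈ u.1 := h1
    exact not_mem_of_finite u (Set.Finite.preimage hφ.injOn (finite_singleton n)) h2⟩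
  continuous_toFun := by
    apply Continuous.subtype_mk
    refine ultrafilterBasis_is_basis.continuous_iff.2 ?_
    rintro _ ⟨S, rfl⟩
    exact isOpen_star (φ ⁻¹' S)

lemma induced_preimage (φ : ℕ → ℕ) (hφ : Function.Injective φ) (S : Set ℕ) :
    induced φ hφ ⁻¹' star S = star (φ ⁻¹' S) := rfl

/-- Basic neighbourhoods of the identity. -/
lemma nhds_id {U : Set C(Nstar, Nstar)} (hU : U ∈ 𝓝 (ContinuousMap.id Nstar)) :
    ∃ T : Set (Set ℕ), T.Finite ∧ ∀ f : C(Nstar, Nstar), (∀ b ∈ T, f ⁻¹' star b = star b) →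
      f ∈ U := by
  have h1 : (⨅ b : Set ℕ, 𝓟 {f : C(Nstar, Nstar) | f ⁻¹' star b = star b}) ≤
      𝓝 (ContinuousMap.id Nstar) := by
    rw [ContinuousMap.nhds_compactOpen]
    refine le_iInf fun K => le_iInf fun hK => le_iInf fun V => le_iInf fun hV => le_iInf fun h => ?_
    obtain ⟨b, hKb, hbV⟩ : ∃ b, K ⊆ star b ∧ star b ⊆ V := by
      refine hK.induction_on (p := fun s => ∃ b, s ⊆ star b ∧ star b ⊆ V) ?_ ?_ ?_ ?_
      · refine ⟨∅, empty_subset _, fun u hu => absurd hu u.1.empty_notMem⟩
      · rintro s t hst ⟨b, h1, h2⟩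
        exact ⟨b, hst.trans h1, h2⟩
      · rintro s t ⟨b, h1, h2⟩ ⟨c, h3, h4⟩
        refine ⟨b ∪ c, ?_, ?_⟩
        · rintro x (hx | hx)
          · exact mem_of_superset (h1 hx) subset_union_left
          · exact mem_of_superset (h3 hx) subset_union_right
        · intro x hx
          rcases Ultrafilter.union_mem_iff.1 hx with h5 | h5
          · exact h2 h5
          · exact h4 h5
      · intro x hx
        obtain ⟨b, hxb, hb⟩ := exists_star hV (h hx)
        exact ⟨star b, mem_nhdsWithin_of_mem_nhds ((isOpen_star b).mem_nhds hxb), b, Subset.rfl, hb⟩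
    refine (iInf_le _ b).trans (principal_mono.2 ?_)
    intro f hf x hx
    have h2 : x ∈ f ⁻¹' star b := by
      rw [show f ⁻¹' star b = star b from hf]
      exact hKb hx
    exact hbV h2
  have h2 := h1 hU
  obtain ⟨T, hT, hTU⟩ := (hasBasis_iInf_principal_finite _).mem_iff.1 h2
  exact ⟨T, hT, fun f hf => hTU (mem_iInter₂.2 hf)⟩

/-- For every `b` the map `f ↦ f⁻¹(b*)` is locally constant. -/
lemma locallyConstant (b : Set ℕ) :
    IsLocallyConstant fun f : C(Nstar, Nstar) => f ⁻¹' star b := by
  rw [IsLocallyConstant.iff_exists_open]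
  intro f
  refine ⟨{g | MapsTo g (f ⁻¹' star b) (star b)} ∩ {g | MapsTo g (f ⁻¹' star b)ᶜ (star b)ᶜ},
    ?_, ⟨fun x hx => hx, fun x hx => hx⟩, ?_⟩
  · apply IsOpen.inter
    · exact ContinuousMap.isOpen_setOfPred_mapsTo ((isClosed_star b).preimage f.continuous).isCompact
        (isOpen_star b)
    · exact ContinuousMap.isOpen_setOfPred_mapsTo
        ((isOpen_star b).preimage f.continuous).isClosed_compl.isCompact
        (isClosed_star b).isOpen_compl
  · rintro g ⟨hg1, hg2⟩
    ext x
    constructor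
    · intro hx
      by_contra hcon
      exact hg2 hcon hx
    · intro hx
      exact hg1 hx

/-- A pseudo-intersection argument. -/
lemma exists_pseudo (s : ℕ → Set ℕ) : ∃ a : ℕ → ℕ, StrictMono a ∧
    ∀ k, (∀ n ≥ k, a n ∈ s k) ∨ (∀ n ≥ k, a n ∉ s k) := by
  classical
  obtain ⟨u, _⟩ := star_nonempty (S := univ) infinite_univ
  let s' : ℕ → Set ℕ := fun k => if s k ∈ u.1 then s k else (s k)ᶜ
  have hs' : ∀ k, s' k ∈ u.1 := by
    intro k
    by_cases h : s k ∈ u.1
    · have : s' k = s k := if_pos h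
      rw [this]
      exact h
    · have : s' k = (s k)ᶜ := if_neg h
      rw [this]
      exact Ultrafilter.compl_mem_iff_notMem.2 h
  have hI : ∀ n, (⋂ k ∈ Finset.range (n + 1), s' k) ∈ u.1 := by
    intro n
    exact (Filter.biInter_finset_mem _).2 fun k _ => hs' k
  have hne : ∀ n m : ℕ, ∃ x > m, ∀ k ≤ n, x ∈ s' k := by
    intro n m
    have h1 : (⋂ k ∈ Finset.range (n + 1), s' k).Infinite := fun h => not_mem_of_finite u h (hI n)
    obtain ⟨x, hx, hmx⟩ := h1.exists_gt m
    refine ⟨x, hmx, fun k hk => ?_⟩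
    exact mem_iInter₂.1 hx k (Finset.mem_range.2 (Nat.lt_succ_of_le hk))
  choose c hc1 hc2 using hne
  let a : ℕ → ℕ := fun n => Nat.rec (c 0 0) (fun n x => c (n + 1) x) n
  have ha : ∀ n, a (n + 1) = c (n + 1) (a n) := fun n => rfl
  have ha2 : ∀ n, ∀ k ≤ n, a n ∈ s' k := by
    intro n k hk
    cases n with
    | zero => exact hc2 0 0 k hk
    | succ n =>
      rw [ha]
      exact hc2 _ _ k hk
  refine ⟨a, strictMono_nat_of_lt_succ fun n => ?_, fun k => ?_⟩
  · rw [ha]
    exact hc1 _ _
  · by_cases h : s k ∈ u.1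
    · left
      intro n hn
      have h1 : s' k = s k := if_pos h
      rw [← h1]
      exact ha2 n k hn
    · right
      intro n hn
      have h1 : s' k = (s k)ᶜ := if_neg h
      have h2 := ha2 n k hn
      rw [h1] at h2
      exact h2

open Classical in
/-- The shift by `i` along the sequence `a`. -/
noncomputable def shift (a : ℕ → ℕ) (i : ℕ) (x : ℕ) : ℕ :=
  if h : ∃ n, a n = x then a (h.choose + i) else x

lemma shift_apply {a : ℕ → ℕ} (ha : Function.Injective a) (i n : ℕ) :
    shift a i (a n) = a (n + i) := by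
  have h : ∃ m, a m = a n := ⟨n, rfl⟩
  have h1 : shift a i (a n) = a (h.choose + i) := dif_pos h
  rw [h1, ha h.choose_spec]

lemma shift_of_not {a : ℕ → ℕ} {x : ℕ} (i : ℕ) (h : ¬ ∃ n, a n = x) : shift a i x = x :=
  dif_neg h

lemma shift_injective {a : ℕ → ℕ} (ha : Function.Injective a) (i : ℕ) :
    Function.Injective (shift a i) := by
  intro x y hxy
  by_cases hx : ∃ n, a n = x
  · obtain ⟨n, rfl⟩ := hx
    by_cases hy : ∃ n, a n = y
    · obtain ⟨m, rfl⟩ := hy
      rw [shift_apply ha, shift_apply ha] at hxy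
      rw [Nat.add_right_cancel (ha hxy)]
    · rw [shift_apply ha, shift_of_not i hy] at hxy
      exact absurd ⟨n + i, hxy⟩ hy
  · by_cases hy : ∃ n, a n = y
    · obtain ⟨m, rfl⟩ := hy
      rw [shift_of_not i hx, shift_apply ha] at hxy
      exact absurd ⟨m + i, hxy.symm⟩ hx
    · rw [shift_of_not i hx, shift_of_not i hy] at hxy
      exact hxy

/-- **`C_k(ω*, ω*)` is not a `G_δ` in any compact Hausdorff space containing it.** -/
theorem not_isGδ {K : Type u} [TopologicalSpace K] [CompactSpace K] [T2Space K]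
    (e : C(Nstar, Nstar) → K) (he : IsEmbedding e) : ¬ IsGδ (range e) := by
  intro hG
  obtain ⟨O, hO, hOe⟩ := isGδ_iff_eq_iInter_nat.1 hG
  have hmem : ∀ n, e (ContinuousMap.id Nstar) ∈ O n := by
    intro n
    have h1 : e (ContinuousMap.id Nstar) ∈ range e := mem_range_self _
    rw [hOe] at h1
    exact mem_iInter.1 h1 n
  have hV : ∀ n, ∃ V ∈ 𝓝 (e (ContinuousMap.id Nstar)), IsClosed V ∧ V ⊆ O n :=
    fun n => exists_mem_nhds_isClosed_subset ((hO n).mem_nhds (hmem n))
  choose V hV1 hV2 hV3 using hV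
  have hT : ∀ n, ∃ T : Set (Set ℕ), T.Finite ∧
      ∀ f : C(Nstar, Nstar), (∀ b ∈ T, f ⁻¹' star b = star b) → e f ∈ V n :=
    fun n => nhds_id (he.continuous.continuousAt.preimage_mem_nhds (hV1 n))
  choose T hT1 hT2 using hT
  have hTc : (insert univ (⋃ n, T n)).Countable :=
    (countable_iUnion fun n => (hT1 n).countable).insert _
  obtain ⟨s, hs⟩ := hTc.exists_eq_range ⟨univ, mem_insert _ _⟩
  obtain ⟨a, ha, hsa⟩ := exists_pseudo s
  -- the compact set
  have hC : IsCompact (e ⁻¹' ⋂ n, V n) := by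
    rw [he.isCompact_iff, image_preimage_eq_inter_range]
    have h1 : (⋂ n, V n) ∩ range e = ⋂ n, V n := by
      apply inter_eq_left.2
      rw [hOe]
      exact iInter_mono hV3
    rw [h1]
    exact (isClosed_iInter hV2).isCompact
  -- the maps
  have hf : ∀ i, induced (shift a i) (shift_injective ha.injective i) ∈ e ⁻¹' ⋂ n, V n := by
    intro i
    refine mem_iInter.2 fun n => hT2 n _ fun b hb => ?_
    obtain ⟨k, rfl⟩ : b ∈ range s := by
      rw [← hs]
      exact mem_insert_of_mem _ (mem_iUnion.2 ⟨n, hb⟩)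
    rw [induced_preimage]
    apply Subset.antisymm
    · rw [star_subset_iff]
      refine ((finite_lt_nat k).image a).subset ?_
      rintro x ⟨hx1, hx2⟩
      by_cases hx : ∃ m, a m = x
      · obtain ⟨m, rfl⟩ := hx
        refine ⟨m, ?_, rfl⟩
        by_contra hcon
        have hkm : m ≥ k := not_lt.1 hcon
        rw [mem_preimage, shift_apply ha.injective] at hx1
        rcases hsa k with h1 | h1
        · exact hx2 (h1 m hkm)
        · exact h1 (m + i) (by omega) hx1
      · rw [mem_preimage, shift_of_not i hx] at hx1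
        exact absurd hx1 hx2
    · rw [star_subset_iff]
      refine ((finite_lt_nat k).image a).subset ?_
      rintro x ⟨hx1, hx2⟩
      by_cases hx : ∃ m, a m = x
      · obtain ⟨m, rfl⟩ := hx
        refine ⟨m, ?_, rfl⟩
        by_contra hcon
        have hkm : m ≥ k := not_lt.1 hcon
        rw [mem_preimage, shift_apply ha.injective] at hx2
        rcases hsa k with h1 | h1
        · exact hx2 (h1 (m + i) (by omega))
        · exact h1 m hkm hx1
      · rw [mem_preimage, shift_of_not i hx] at hx2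
        exact absurd hx1 hx2
  -- the set which distinguishes them
  let b : Set ℕ := range fun m : ℕ => a (m * m)
  have hb : ∀ n, a n ∈ b ↔ ∃ m, m * m = n := by
    intro n
    constructor
    · rintro ⟨m, hm⟩
      exact ⟨m, ha.injective hm⟩
    · rintro ⟨m, rfl⟩
      exact ⟨m, rfl⟩
  have hne : ∀ i j, i < j → star (shift a i ⁻¹' b) ≠ star (shift a j ⁻¹' b) := by
    intro i j hij heq
    have h1 : (shift a i ⁻¹' b \ shift a j ⁻¹' b).Finite := star_subset_iff.1 heq.subset
    have h2 : (range fun m : ℕ => a ((m + j) * (m + j) - i)) ⊆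
        shift a i ⁻¹' b \ shift a j ⁻¹' b := by
      rintro _ ⟨m, rfl⟩
      have h3 : i ≤ (m + j) * (m + j) := by nlinarith
      constructor
      · rw [mem_preimage, shift_apply ha.injective, hb]
        exact ⟨m + j, by omega⟩
      · rw [mem_preimage, shift_apply ha.injective, hb]
        rintro ⟨r, hr⟩
        have h4 : (m + j) * (m + j) < r * r := by omega
        have h5 : r * r < (m + j + 1) * (m + j + 1) := by
          have : (m + j + 1) * (m + j + 1) = (m + j) * (m + j) + 2 * (m + j) + 1 := by ring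
          omega
        have h6 : m + j < r := lt_of_mul_self_lt_mul_self₀ (Nat.zero_le _) h4
        have h7 : r < m + j + 1 := lt_of_mul_self_lt_mul_self₀ (Nat.zero_le _) h5
        omega
    refine infinite_range_of_injective ?_ (h1.subset h2)
    have h8 : StrictMono fun m : ℕ => (m + j) * (m + j) - i := by
      apply strictMono_nat_of_lt_succ
      intro m
      have h3 : i ≤ (m + j) * (m + j) := by nlinarith
      have h9 : (m + 1 + j) * (m + 1 + j) = (m + j) * (m + j) + 2 * (m + j) + 1 := by ring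
      show (m + j) * (m + j) - i < (m + 1 + j) * (m + 1 + j) - i
      omega
    exact (ha.comp h8).injective
  -- conclusion
  have : CompactSpace (e ⁻¹' ⋂ n, V n) := isCompact_iff_compactSpace.1 hC
  have hfin := ((locallyConstant b).comp_continuous
    (continuous_subtype_val (p := (· ∈ e ⁻¹' ⋂ n, V n)))).range_finite
  have hinf : (range fun i => star (shift a i ⁻¹' b)).Infinite := by
    apply infinite_range_of_injective
    intro i j hij
    rcases lt_trichotomy i j with h | h | h
    · exact absurd hij (hne i j h)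
    · exact h
    · exact absurd hij.symm (hne j i h)
  apply hinf
  apply hfin.subset
  rintro _ ⟨i, rfl⟩
  exact ⟨⟨_, hf i⟩, rfl⟩

/-- A Tychonoff space is Čech-complete if it is a `G_δ` in its Stone-Čech compactification. -/
def CechComplete (Z : Type u) [TopologicalSpace Z] : Prop :=
  T35Space Z ∧ IsGδ (range (stoneCechUnit : Z → StoneCech Z))

/-- **The Tychonoff space `C_k(ω*, ω*)` is not Čech-complete.** In fact it is not a `G_δ` subset of
any compact Hausdorff space which contains it as a subspace. -/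
theorem result : T35Space C(Nstar, Nstar) ∧ ¬ CechComplete C(Nstar, Nstar) ∧
    ∀ (K : Type u) [TopologicalSpace K] [CompactSpace K] [T2Space K] (e : C(Nstar, Nstar) → K),
      IsEmbedding e → ¬ IsGδ (range e) := by
  refine ⟨t35, fun h => ?_, ?_⟩
  · have := t35
    exact not_isGδ _ isEmbedding_stoneCechUnit h.2
  · intro K _ _ _ e he
    exact not_isGδ e he

end Pool.Agent.Results.MP_7e6923_gt.NotCechComplete
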